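import Pool.Agent.Lib.MP_6bc78b_nt.MS.P2.Iface
import Pool.Agent.Lib.MP_6bc78b_nt.MS.P2.Ph
import Pool.Agent.Lib.MP_6bc78b_nt.MS.P2.H75.Crude

/-! Project MS, Part II, module BIL: bilinear families. -/

set_option autoImplicit false

open Filter Topology ArithmeticFunction

namespace Pool.Agent.Lib.MP_6bc78b_nt.MS.P2.H46

open Pool.Agent.Lib.MP_6bc78b_nt.LS (primSum primSum_nonneg)

namespace Bil

theorem dv_nonneg (n : ℕ) : 0 ≤ dv n := Nat.cast_nonneg _

theorem one_le_dv {n : ℕ} (hn : 1 ≤ n) : 1 ≤ dv n := by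
  have : 0 < n.divisors.card := Finset.card_pos.2 (Nat.nonempty_divisors.2 (by omega))
  unfold dv
  exact_mod_cast this

theorem dv_le_of_dvd {a b : ℕ} (h : a ∣ b) (hb : 1 ≤ b) : dv a ≤ dv b := by
  unfold dv
  exact_mod_cast Finset.card_le_card (Nat.divisors_subset_of_dvd (by omega) h)

theorem dv_le_self (n : ℕ) : dv n ≤ n := by
  unfold dv
  exact_mod_cast Nat.card_divisors_le_self n

/-- `(log T)^k ≤ T^δ` for large `T`. -/
theorem log_pow_le (k : ℕ) (δ : ℝ) (hδ : 0 < δ) : ∀ᶠ T : ℝ in atTop, Real.log T ^ k ≤ T ^ δ := by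
  have h := (isLittleO_log_rpow_rpow_atTop (k : ℝ) hδ).bound one_pos
  filter_upwards [h, eventually_gt_atTop 1] with T hT hT1
  have h1 : 0 ≤ Real.log T ^ (k : ℝ) := Real.rpow_nonneg (Real.log_nonneg hT1.le) _
  have h2 : 0 ≤ T ^ δ := Real.rpow_nonneg (by linarith) _
  rw [one_mul, Real.norm_of_nonneg h1, Real.norm_of_nonneg h2, Real.rpow_natCast] at hT
  exact hT

/-! ### The real inequality for one block -/

theorem real_block (th ze xi η T Q s d d1 d2 U V : ℝ) (hT : 1 ≤ T) (hQ : 1 ≤ Q) (hs : 1 ≤ s)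
    (hd : 1 ≤ d) (hds : d ≤ s) (hd1 : 1 ≤ d1) (hd2 : 1 ≤ d2) (hdd : d1 * d2 = d)
    (hU : 1 ≤ U) (hV : 1 ≤ V) (hQs : Q * s ≤ T ^ th) (hUV : U * V ≤ 2 * (Q * s * T))
    (hUze : T ^ ze ≤ 2 * U) (hUxi : U ≤ T ^ xi) (h1 : η ≤ 1 / 2 - th) (h2 : η ≤ (1 - xi) / 2)
    (h3 : η ≤ (ze - th) / 2) :
    d / s * (1 / (Q * Real.sqrt Q) * Real.sqrt ((Q ^ 2 + U / d1) * (Q ^ 2 + V / d2) *
      (U * V / d))) ≤ T * (6 * T ^ (-η) + 2 / Real.sqrt Q) := by
  have hT0 : 0 < T := by linarith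
  have hA0 : 0 < U / d1 := by positivity
  have hB0 : 0 < V / d2 := by positivity
  have hAB : U / d1 * (V / d2) = U * V / d := by rw [← hdd]; field_simp
  set α := Real.sqrt (U / d1) with hα
  set β := Real.sqrt (V / d2) with hβ
  have hα2 : α ^ 2 = U / d1 := Real.sq_sqrt hA0.le
  have hβ2 : β ^ 2 = V / d2 := Real.sq_sqrt hB0.le
  have hα0 : 0 ≤ α := Real.sqrt_nonneg _
  have hβ0 : 0 ≤ β := Real.sqrt_nonneg _
  set r := Real.sqrt Q with hr
  have hr2 : r ^ 2 = Q := Real.sq_sqrt (by linarith)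
  have hr0 : 0 < r := Real.sqrt_pos.2 (by linarith)
  have hsq : Real.sqrt ((Q ^ 2 + U / d1) * (Q ^ 2 + V / d2) * (U * V / d)) ≤
      (Q + α) * (Q + β) * (α * β) := by
    apply Real.sqrt_le_iff.2
    refine ⟨by positivity, ?_⟩
    rw [← hAB, ← hα2, ← hβ2]
    have e1 : Q ^ 2 + α ^ 2 ≤ (Q + α) ^ 2 := by nlinarith
    have e2 : Q ^ 2 + β ^ 2 ≤ (Q + β) ^ 2 := by nlinarith
    calc (Q ^ 2 + α ^ 2) * (Q ^ 2 + β ^ 2) * (α ^ 2 * β ^ 2)
        ≤ (Q + α) ^ 2 * (Q + β) ^ 2 * (α ^ 2 * β ^ 2) := by gcongr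
      _ = ((Q + α) * (Q + β) * (α * β)) ^ 2 := by ring
  have hUVs : U * V / s ≤ 2 * Q * T := by
    rw [div_le_iff₀ (by linarith)]
    linarith
  set w := α * β * (d / s) with hw
  have hw0 : 0 ≤ w := by positivity
  have hds1 : d / s ≤ 1 := by rw [div_le_one (by linarith)]; exact hds
  have hwab : w * (α * β) = U * V / s := by
    have : w * (α * β) = α ^ 2 * β ^ 2 * (d / s) := by rw [hw]; ring
    rw [this, hα2, hβ2, hAB]
    field_simp
  have hw1 : w ≤ Real.sqrt (2 * T) * r := by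
    have h4 : w ^ 2 ≤ (Real.sqrt (2 * T) * r) ^ 2 := by
      have h5 : w ^ 2 = U * V / s * (d / s) := by
        calc w ^ 2 = w * (α * β) * (d / s) := by rw [hw]; ring
          _ = _ := by rw [hwab]
      rw [h5, mul_pow, Real.sq_sqrt (by linarith), hr2]
      have h6 : 0 ≤ U * V / s := by positivity
      calc U * V / s * (d / s) ≤ U * V / s * 1 := mul_le_mul_of_nonneg_left hds1 h6
        _ ≤ 2 * T * Q := by linarith
    exact abs_le_of_sq_le_sq' h4 (by positivity) |>.2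
  have hkey : d / s * (1 / (Q * r) * Real.sqrt ((Q ^ 2 + U / d1) * (Q ^ 2 + V / d2) *
      (U * V / d))) ≤ Real.sqrt (2 * T) * (Q + α + β) + 2 * T / r := by
    calc d / s * (1 / (Q * r) * Real.sqrt ((Q ^ 2 + U / d1) * (Q ^ 2 + V / d2) * (U * V / d)))
        ≤ d / s * (1 / (Q * r) * ((Q + α) * (Q + β) * (α * β))) := by gcongr
      _ = w * ((Q + α + β) / r) + w * (α * β) / (Q * r) := by
          rw [hw]; field_simp; ring
      _ ≤ (Real.sqrt (2 * T) * r) * ((Q + α + β) / r) + 2 * Q * T / (Q * r) := by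
          rw [hwab]
          gcongr
      _ = Real.sqrt (2 * T) * (Q + α + β) + 2 * T / r := by field_simp
  refine hkey.trans ?_
  have hs2 : Real.sqrt (2 * T) ≤ 3 / 2 * T ^ (1 / 2 : ℝ) := by
    rw [← Real.sqrt_eq_rpow, Real.sqrt_mul (by norm_num)]
    apply mul_le_mul_of_nonneg_right _ (Real.sqrt_nonneg _)
    rw [Real.sqrt_le_left (by norm_num)]
    norm_num
  have hQ1 : Q ≤ T ^ th := le_trans (by nlinarith) hQs
  have hα1 : α ≤ T ^ (xi / 2) := by
    rw [hα]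
    apply Real.sqrt_le_iff.2
    refine ⟨by positivity, ?_⟩
    rw [← Real.rpow_natCast, ← Real.rpow_mul hT0.le]
    have : xi / 2 * ((2 : ℕ) : ℝ) = xi := by push_cast; ring
    rw [this]
    exact (div_le_self (by linarith) hd1).trans hUxi
  have hβ1 : β ≤ 2 * T ^ ((1 + th - ze) / 2) := by
    rw [hβ]
    apply Real.sqrt_le_iff.2
    refine ⟨by positivity, ?_⟩
    rw [mul_pow, ← Real.rpow_natCast (T ^ ((1 + th - ze) / 2)), ← Real.rpow_mul hT0.le]
    have : (1 + th - ze) / 2 * ((2 : ℕ) : ℝ) = 1 + th - ze := by push_cast; ring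
    rw [this]
    refine (div_le_self (by linarith) hd2).trans ?_
    have h4 : V * T ^ ze ≤ 4 * (T ^ th * T) := by
      calc V * T ^ ze ≤ V * (2 * U) := by gcongr
        _ = 2 * (U * V) := by ring
        _ ≤ 2 * (2 * (Q * s * T)) := by linarith
        _ ≤ 2 * (2 * (T ^ th * T)) := by gcongr
        _ = 4 * (T ^ th * T) := by ring
    have h5 : T ^ (1 + th - ze) = T ^ th * T / T ^ ze := by
      rw [Real.rpow_sub hT0, add_comm 1 th, Real.rpow_add hT0, Real.rpow_one]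
    rw [h5]
    have h6 : 0 < T ^ ze := Real.rpow_pos_of_pos hT0 _
    have h7 : (2 : ℝ) ^ 2 * (T ^ th * T / T ^ ze) = 4 * (T ^ th * T) / T ^ ze := by ring
    rw [h7, le_div_iff₀ h6]
    exact h4
  have hrp : ∀ x : ℝ, x ≤ 1 / 2 - η → T ^ (1 / 2 : ℝ) * T ^ x ≤ T * T ^ (-η) := by
    intro x hx
    rw [← Real.rpow_add hT0]
    nth_rewrite 2 [← Real.rpow_one T]
    rw [← Real.rpow_add hT0]
    exact Real.rpow_le_rpow_of_exponent_le hT (by linarith)
  have hp1 := hrp th (by linarith)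
  have hp2 := hrp (xi / 2) (by linarith)
  have hp3 := hrp ((1 + th - ze) / 2) (by linarith)
  have hT12 : 0 ≤ T ^ (1 / 2 : ℝ) := Real.rpow_nonneg hT0.le _
  have hfin : Real.sqrt (2 * T) * (Q + α + β) ≤ 6 * (T * T ^ (-η)) := by
    calc Real.sqrt (2 * T) * (Q + α + β)
        ≤ 3 / 2 * T ^ (1 / 2 : ℝ) * (T ^ th + T ^ (xi / 2) + 2 * T ^ ((1 + th - ze) / 2)) := by
          gcongr
      _ = 3 / 2 * (T ^ (1 / 2 : ℝ) * T ^ th) + 3 / 2 * (T ^ (1 / 2 : ℝ) * T ^ (xi / 2)) +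
          3 * (T ^ (1 / 2 : ℝ) * T ^ ((1 + th - ze) / 2)) := by ring
      _ ≤ 6 * (T * T ^ (-η)) := by linarith
  have h8 : T * (6 * T ^ (-η) + 2 / r) = 6 * (T * T ^ (-η)) + 2 * T / r := by ring
  rw [h8]
  linarith

/-! ### Dyadic blocks -/

theorem sum_app {ι : Type*} (R : Finset ι) (f : ι → ArithmeticFunction ℝ) (n : ℕ) :
    (∑ i ∈ R, f i) n = ∑ i ∈ R, f i n := by
  classical
  induction R using Finset.induction_on with
  | empty => simp
  | insert i R hi ih =>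
    rw [Finset.sum_insert hi, Finset.sum_insert hi, ArithmeticFunction.add_apply, ih]

/-- `a` restricted to `[2^i, 2^(i+1))` and to `n ≤ z`. -/
noncomputable def bk (z : ℝ) (i : ℕ) (a : ArithmeticFunction ℝ) : ArithmeticFunction ℝ :=
  ⟨fun n => if 2 ^ i ≤ n ∧ n < 2 * 2 ^ i ∧ (n : ℝ) ≤ z then a n else 0, by simp⟩

theorem bk_apply (z : ℝ) (i : ℕ) (a : ArithmeticFunction ℝ) (n : ℕ) :
    bk z i a n = if 2 ^ i ≤ n ∧ n < 2 * 2 ^ i ∧ (n : ℝ) ≤ z then a n else 0 := rfl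

theorem bk_ne {z : ℝ} {i : ℕ} {a : ArithmeticFunction ℝ} {n : ℕ} (h : bk z i a n ≠ 0) :
    2 ^ i ≤ n ∧ n < 2 * 2 ^ i ∧ (n : ℝ) ≤ z ∧ a n ≠ 0 := by
  rw [bk_apply] at h
  split_ifs at h with h1
  · exact ⟨h1.1, h1.2.1, h1.2.2, h⟩
  · exact absurd rfl h

theorem bk_sum (z : ℝ) (a : ArithmeticFunction ℝ) (I n : ℕ) (hn : 1 ≤ n) (hz : (n : ℝ) ≤ z)
    (hI : n < 2 ^ I) : ∑ i ∈ Finset.range I, bk z i a n = a n := by
  have h1 : 2 ^ (Nat.log 2 n) ≤ n := Nat.pow_log_le_self 2 (by omega)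
  have h2 : n < 2 ^ (Nat.log 2 n + 1) := Nat.lt_pow_succ_log_self (by norm_num) n
  have h3 : Nat.log 2 n < I := by
    rw [← Nat.pow_lt_pow_iff_right (a := 2) (by norm_num)]
    omega
  rw [Finset.sum_eq_single (Nat.log 2 n)]
  · rw [bk_apply, if_pos ⟨h1, by rw [pow_succ] at h2; omega, hz⟩]
  · intro i _ hne
    rw [bk_apply, if_neg]
    rintro ⟨h4, h5, -⟩
    apply hne
    rw [mul_comm, ← pow_succ] at h5
    exact (Nat.log_eq_of_pow_le_of_lt_pow h4 h5).symm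
  · intro h
    exact absurd (Finset.mem_range.2 h3) h

theorem conv_eq (z : ℝ) (u v : ArithmeticFunction ℝ) (I n : ℕ) (hz : (n : ℝ) ≤ z)
    (hI : n < 2 ^ I) : (u * v) n = (∑ p ∈ Finset.range I ×ˢ Finset.range I,
      bk z p.1 u * bk z p.2 v) n := by
  have h1 : (∑ p ∈ Finset.range I ×ˢ Finset.range I, bk z p.1 u * bk z p.2 v) =
      (∑ i ∈ Finset.range I, bk z i u) * (∑ k ∈ Finset.range I, bk z k v) := by
    rw [Finset.sum_mul_sum, Finset.sum_product]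
  rw [h1, ArithmeticFunction.mul_apply, ArithmeticFunction.mul_apply]
  refine Finset.sum_congr rfl fun x hx => ?_
  rw [Nat.mem_divisorsAntidiagonal] at hx
  obtain ⟨h2, h3⟩ := hx
  have hx1 : 1 ≤ x.1 := by
    rcases Nat.eq_zero_or_pos x.1 with h | h
    · rw [h, zero_mul] at h2; omega
    · exact h
  have hx2 : 1 ≤ x.2 := by
    rcases Nat.eq_zero_or_pos x.2 with h | h
    · rw [h, mul_zero] at h2; omega
    · exact h
  have h4 : x.1 ≤ n := by rw [← h2]; exact Nat.le_mul_of_pos_right _ hx2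
  have h5 : x.2 ≤ n := by rw [← h2]; exact Nat.le_mul_of_pos_left _ hx1
  have e1 : (∑ i ∈ Finset.range I, bk z i u) x.1 = ∑ i ∈ Finset.range I, bk z i u x.1 := by
    rw [sum_app]
  have e2 : (∑ i ∈ Finset.range I, bk z i v) x.2 = ∑ i ∈ Finset.range I, bk z i v x.2 := by
    rw [sum_app]
  rw [e1, e2, bk_sum z u I x.1 hx1 (le_trans (by exact_mod_cast h4) hz) (by omega),
    bk_sum z v I x.2 hx2 (le_trans (by exact_mod_cast h5) hz) (by omega)]

/-- Covering of the conductors. -/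
theorem QQ_cover (j : ℕ) (T : ℝ) (α : ArithmeticFunction ℝ) (s d : ℕ) (S R : Finset ℕ)
    (J : ℕ → Finset ℕ) (h : ∀ q ∈ S, ∃ l ∈ R, q ∈ J l) :
    QQ j T α s d S ≤ ∑ l ∈ R, QQ j T α s d (J l) := by
  classical
  unfold QQ
  set f : ℕ → ℝ := fun q => 1 / (Real.sqrt q * (q.totient : ℝ)) *
    primSum q (fun ψ => ‖VV j T α (q * s) d ψ‖) with hf
  have hf0 : ∀ q, 0 ≤ f q := fun q =>
    mul_nonneg (by positivity) (primSum_nonneg q _ fun _ => norm_nonneg _)
  calc ∑ q ∈ S, f q ≤ ∑ q ∈ S, ∑ l ∈ R, (if q ∈ J l then f q else 0) := by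
        refine Finset.sum_le_sum fun q hq => ?_
        obtain ⟨l, hl, hql⟩ := h q hq
        refine le_trans ?_ (Finset.single_le_sum (f := fun l => if q ∈ J l then f q else 0)
          (fun l _ => ?_) hl)
        · simp only [hql, if_true]; exact le_rfl
        · split_ifs
          · exact hf0 q
          · exact le_rfl
    _ = ∑ l ∈ R, ∑ q ∈ S, (if q ∈ J l then f q else 0) := Finset.sum_comm
    _ ≤ ∑ l ∈ R, ∑ q ∈ J l, f q := by
        refine Finset.sum_le_sum fun l _ => ?_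
        rw [← Finset.sum_filter]
        refine Finset.sum_le_sum_of_subset_of_nonneg ?_ fun q _ _ => hf0 q
        intro q hq
        exact (Finset.mem_filter.1 hq).2

theorem QQ_congr (j : ℕ) (T : ℝ) (α β : ArithmeticFunction ℝ) (s d : ℕ) (S : Finset ℕ)
    (h : ∀ n : ℕ, 1 ≤ n → n ≤ ⌊T ^ 2⌋₊ → α n = β n) : QQ j T α s d S = QQ j T β s d S := by
  unfold QQ
  refine Finset.sum_congr rfl fun q _ => ?_
  have : (fun ψ : DirichletCharacter ℂ q => ‖VV j T α (q * s) d ψ‖) =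
      fun ψ => ‖VV j T β (q * s) d ψ‖ := by
    funext ψ
    rw [VV_congr j T α β (q * s) d ψ h]
  rw [this]

/-- Blocks outside the essential range. -/
theorem small_block (j N : ℕ) (T P : ℝ) (hT : 1 ≤ T) (hP : 0 ≤ P)
    (hw1 : ∀ r : ℝ, 1 / T ≤ r → r ≤ T / 16 → |wt j T r| ≤ 1 / T ^ N)
    (hw2 : ∀ r : ℝ, T / 2 ≤ r → |wt j T r| ≤ 1 / r ^ N)
    (u v : ArithmeticFunction ℝ) (hu : ∀ n, |u n| ≤ P) (hv : ∀ n, |v n| ≤ P)
    (U V : ℕ) (husup : ∀ n : ℕ, u n ≠ 0 → U ≤ n ∧ n < 2 * U)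
    (hvsup : ∀ n : ℕ, v n ≠ 0 → V ≤ n ∧ n < 2 * V)
    (Q s d : ℕ) (hQ : 1 ≤ Q) (hs : 1 ≤ s) (hQs : 2 * ((Q * s : ℕ) : ℝ) ≤ T)
    (hr : ((U * V : ℕ) : ℝ) < ((Q * s : ℕ) : ℝ) * T / 100 ∨
      2 * (((Q * s : ℕ) : ℝ) * T) < ((U * V : ℕ) : ℝ)) :
    QQ j T (u * v) s d (Finset.Ioc Q (2 * Q)) ≤ T * (T ^ 2 * (T ^ 2 * P ^ 2 / T ^ N)) := by
  have hT0 : 0 < T := by linarith
  have hsR : (1 : ℝ) ≤ s := by exact_mod_cast hs
  have hQR : (1 : ℝ) ≤ Q := by exact_mod_cast hQ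
  have hM0 : 0 ≤ T ^ 2 * P ^ 2 / T ^ N := by positivity
  refine (H75.QQ_le j T (u * v) s d _ (T ^ 2 * (T ^ 2 * P ^ 2 / T ^ N)) ?_ (by positivity)
    ?_).trans ?_
  · intro q hq
    rw [Finset.mem_Ioc] at hq; omega
  · intro q hq ψ hψ
    rw [Finset.mem_Ioc] at hq
    refine H75.VV_le j T (u * v) (q * s) d ψ _ hM0 fun n hn1 hnT => ?_
    by_cases h0 : (u * v) n = 0
    · rw [h0, zero_mul, abs_zero]; exact hM0
    have habs : |(u * v) n| ≤ T ^ 2 * P ^ 2 := by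
      rw [ArithmeticFunction.mul_apply]
      refine (Finset.abs_sum_le_sum_abs _ _).trans ?_
      have h1 : ∀ x ∈ n.divisorsAntidiagonal, |u x.1 * v x.2| ≤ P ^ 2 := by
        intro x _
        rw [abs_mul, sq]
        exact mul_le_mul (hu _) (hv _) (abs_nonneg _) hP
      refine (Finset.sum_le_card_nsmul _ _ _ h1).trans ?_
      rw [nsmul_eq_mul]
      apply mul_le_mul_of_nonneg_right _ (by positivity)
      have h2 : n.divisorsAntidiagonal.card = n.divisors.card := by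
        rw [← Nat.map_div_right_divisors, Finset.card_map]
      rw [h2]
      exact le_trans (by exact_mod_cast Nat.card_divisors_le_self n) hnT
    obtain ⟨x, hx, hx0⟩ : ∃ x ∈ n.divisorsAntidiagonal, u x.1 * v x.2 ≠ 0 := by
      rw [ArithmeticFunction.mul_apply] at h0
      exact Finset.exists_ne_zero_of_sum_ne_zero h0
    rw [Nat.mem_divisorsAntidiagonal] at hx
    obtain ⟨hx1, hx2⟩ := husup x.1 (left_ne_zero_of_mul hx0)
    obtain ⟨hx3, hx4⟩ := hvsup x.2 (right_ne_zero_of_mul hx0)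
    have hlow : ((U * V : ℕ) : ℝ) ≤ n := by
      rw [← hx.1]
      exact_mod_cast Nat.mul_le_mul hx1 hx3
    have hup : (n : ℝ) ≤ 4 * ((U * V : ℕ) : ℝ) := by
      have h3 : x.1 * x.2 ≤ (2 * U) * (2 * V) := Nat.mul_le_mul hx2.le hx4.le
      rw [← hx.1]
      calc ((x.1 * x.2 : ℕ) : ℝ) ≤ (((2 * U) * (2 * V) : ℕ) : ℝ) := by exact_mod_cast h3
        _ = 4 * ((U * V : ℕ) : ℝ) := by push_cast; ring
    have hqs1 : ((Q * s : ℕ) : ℝ) ≤ ((q * s : ℕ) : ℝ) := by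
      exact_mod_cast Nat.mul_le_mul_right s hq.1.le
    have hqs2 : ((q * s : ℕ) : ℝ) ≤ 2 * ((Q * s : ℕ) : ℝ) := by
      have : q * s ≤ 2 * Q * s := Nat.mul_le_mul_right s hq.2
      calc ((q * s : ℕ) : ℝ) ≤ ((2 * Q * s : ℕ) : ℝ) := by exact_mod_cast this
        _ = 2 * ((Q * s : ℕ) : ℝ) := by push_cast; ring
    have hQs0 : (1 : ℝ) ≤ ((Q * s : ℕ) : ℝ) := by
      exact_mod_cast Nat.mul_pos hQ hs
    have hqs0 : 0 < ((q * s : ℕ) : ℝ) := by linarith
    have hwt : |wt j T ((n : ℝ) / ((q * s : ℕ) : ℝ))| ≤ 1 / T ^ N := by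
      rcases hr with hr | hr
      · apply hw1
        · rw [div_le_div_iff₀ hT0 hqs0, one_mul]
          have : (1 : ℝ) ≤ n := by exact_mod_cast hn1
          nlinarith
        · rw [div_le_iff₀ hqs0]
          have : ((Q * s : ℕ) : ℝ) * T ≤ ((q * s : ℕ) : ℝ) * T := by gcongr
          have h5 : 0 ≤ ((q * s : ℕ) : ℝ) * T := by positivity
          linarith
      · have h6 : T ≤ (n : ℝ) / ((q * s : ℕ) : ℝ) := by
          rw [le_div_iff₀ hqs0]
          have : T * ((q * s : ℕ) : ℝ) ≤ T * (2 * ((Q * s : ℕ) : ℝ)) := by gcongr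
          linarith
        refine (hw2 _ (by linarith)).trans ?_
        apply div_le_div_of_nonneg_left zero_le_one (by positivity)
        gcongr
    rw [abs_mul]
    calc |(u * v) n| * |wt j T ((n : ℝ) / ((q * s : ℕ) : ℝ))|
        ≤ (T ^ 2 * P ^ 2) * (1 / T ^ N) := mul_le_mul habs hwt (abs_nonneg _) (by positivity)
      _ = T ^ 2 * P ^ 2 / T ^ N := by ring
  · apply mul_le_mul_of_nonneg_right _ (by positivity)
    rw [Nat.card_Ioc]
    have h1 : ((2 * Q - Q : ℕ) : ℝ) = Q := by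
      congr 1; omega
    rw [h1]
    have h2 : (Q : ℝ) ≤ ((Q * s : ℕ) : ℝ) := by
      push_cast
      exact le_mul_of_one_le_right (by linarith) hsR
    have h3 : 0 ≤ ((Q * s : ℕ) : ℝ) := Nat.cast_nonneg _
    linarith

/-- One block. -/
theorem block (h3 : BlkStatement) (h2 : WttStatement) (th ze xi : ℝ) (hth : 0 < th)
    (hth2 : th < 1 / 2) (j : ℕ) (u v : ℝ → ArithmeticFunction ℝ) (hu : DB u)
    (hv : DB v) (hsup : ∀ T : ℝ, 3 ≤ T → ∀ n : ℕ, u T n ≠ 0 → T ^ ze < n ∧ (n : ℝ) ≤ T ^ xi)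
    (η : ℝ) (e1 : η ≤ 1 / 2 - th) (e2 : η ≤ (1 - xi) / 2) (e3 : η ≤ (ze - th) / 2) :
    ∃ (C : ℝ) (M : ℕ), 0 < C ∧ ∀ᶠ T : ℝ in atTop, ∀ Q s d i k : ℕ, 1 ≤ Q → 1 ≤ s → d ∣ s →
      ((Q * s : ℕ) : ℝ) ≤ T ^ th →
      (d : ℝ) / ((s : ℝ) * s.totient) *
        QQ j T (bk (T ^ 2) i (u T) * bk (T ^ 2) k (v T)) s d (Finset.Ioc Q (2 * Q)) ≤
      C * Real.log T ^ M * dv s ^ (M + 1) * (T / s.totient) *
        (6 * T ^ (-η) + 2 / Real.sqrt Q) + 1 / T ^ 4 := by
  obtain ⟨Ku, hKu⟩ := hu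
  obtain ⟨Kv, hKv⟩ := hv
  set K : ℕ := max Ku Kv with hK
  obtain ⟨C, M, hC, hblk⟩ := h3 th hth hth2 j (K + 1)
  refine ⟨C, M, hC, ?_⟩
  have hhalf := (tendsto_rpow_atTop (show 0 < 1 - th by linarith)).eventually_ge_atTop 2
  filter_upwards [hblk, h2 j (6 * K + 10), eventually_ge_atTop (Real.exp 1),
    eventually_ge_atTop (3 : ℝ), eventually_ge_atTop ((K : ℝ) ^ 2),
    Real.tendsto_log_atTop.eventually_ge_atTop (K : ℝ), hhalf]
    with T hb hw hTe hT3 hTK hLK hTh Q s d i k hQ hs hds hQs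
  have hT0 : 0 < T := by linarith
  have hT1 : 1 ≤ T := by linarith
  have hL : 1 ≤ Real.log T := by rw [Real.le_log_iff_exp_le hT0]; exact hTe
  have hLpos : 0 < Real.log T := by linarith
  have hLT : Real.log T ≤ T := by
    have := Real.log_le_sub_one_of_pos hT0
    linarith
  have hsR : (1 : ℝ) ≤ s := by exact_mod_cast hs
  have hQR : (1 : ℝ) ≤ Q := by exact_mod_cast hQ
  have hd1 : 1 ≤ d := Nat.pos_of_dvd_of_pos hds hs
  have hdR : (1 : ℝ) ≤ d := by exact_mod_cast hd1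
  have hdsR : (d : ℝ) ≤ s := by exact_mod_cast Nat.le_of_dvd hs hds
  have hφ : (1 : ℝ) ≤ s.totient := by exact_mod_cast Nat.totient_pos.2 hs
  have hdvs : 1 ≤ dv s := one_le_dv hs
  have hY : 0 ≤ 6 * T ^ (-η) + 2 / Real.sqrt Q := by positivity
  have hmain0 : 0 ≤ C * Real.log T ^ M * dv s ^ (M + 1) * (T / s.totient) *
      (6 * T ^ (-η) + 2 / Real.sqrt Q) := by positivity
  -- bounds for the blocks
  have hbound : ∀ (a : ℝ → ArithmeticFunction ℝ) (Ka : ℕ), Ka ≤ K →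
      (∀ T : ℝ, 3 ≤ T → ∀ n : ℕ, (n : ℝ) ≤ T ^ 2 → |a T n| ≤ (Ka : ℝ) * Real.log T ^ Ka *
        dv n ^ Ka) → ∀ (i n : ℕ), |bk (T ^ 2) i (a T) n| ≤ Real.log T ^ (K + 1) *
          dv n ^ (K + 1) ∧ |bk (T ^ 2) i (a T) n| ≤ K * T ^ (3 * K) := by
    intro a Ka hKa ha i n
    by_cases h0 : bk (T ^ 2) i (a T) n = 0
    · rw [h0, abs_zero]
      exact ⟨mul_nonneg (by positivity) (pow_nonneg (dv_nonneg _) _), by positivity⟩
    obtain ⟨h4, h5, h6, h7⟩ := bk_ne h0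
    have hn1 : 1 ≤ n := le_trans Nat.one_le_two_pow h4
    have hdn : 1 ≤ dv n := one_le_dv hn1
    have hval : bk (T ^ 2) i (a T) n = a T n := by
      rw [bk_apply, if_pos ⟨h4, h5, h6⟩]
    have hKaR : (Ka : ℝ) ≤ K := by exact_mod_cast hKa
    rw [hval]
    have h8 := ha T hT3 n h6
    constructor
    · refine h8.trans ?_
      calc (Ka : ℝ) * Real.log T ^ Ka * dv n ^ Ka
          ≤ Real.log T * Real.log T ^ K * dv n ^ (K + 1) := by
            have h9 : (Ka : ℝ) ≤ Real.log T := hKaR.trans hLK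
            have h10 : Real.log T ^ Ka ≤ Real.log T ^ K := pow_le_pow_right₀ hL hKa
            have h11 : dv n ^ Ka ≤ dv n ^ (K + 1) := pow_le_pow_right₀ hdn (by omega)
            gcongr
        _ = Real.log T ^ (K + 1) * dv n ^ (K + 1) := by rw [pow_succ (Real.log T)]; ring
    · refine h8.trans ?_
      have hdT : dv n ≤ T ^ 2 := (dv_le_self n).trans h6
      calc (Ka : ℝ) * Real.log T ^ Ka * dv n ^ Ka
          ≤ (K : ℝ) * T ^ K * (T ^ 2) ^ K := by
            have h10 : Real.log T ^ Ka ≤ T ^ K :=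
              (pow_le_pow_left₀ hLpos.le hLT Ka).trans (pow_le_pow_right₀ hT1 hKa)
            have h11 : dv n ^ Ka ≤ (T ^ 2) ^ K :=
              (pow_le_pow_left₀ (by linarith) hdT Ka).trans
                (pow_le_pow_right₀ (one_le_pow₀ hT1) hKa)
            gcongr
        _ = K * T ^ (3 * K) := by
            rw [← pow_mul, mul_assoc, ← pow_add]
            congr 2
            ring
  have hbu := hbound u Ku (le_max_left _ _) hKu i
  have hbv := hbound v Kv (le_max_right _ _) hKv k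
  have hsu : ∀ n : ℕ, bk (T ^ 2) i (u T) n ≠ 0 → 2 ^ i ≤ n ∧ n < 2 * 2 ^ i := fun n hn =>
    ⟨(bk_ne hn).1, (bk_ne hn).2.1⟩
  have hsv : ∀ n : ℕ, bk (T ^ 2) k (v T) n ≠ 0 → 2 ^ k ≤ n ∧ n < 2 * 2 ^ k := fun n hn =>
    ⟨(bk_ne hn).1, (bk_ne hn).2.1⟩
  by_cases hr : ((Q * s : ℕ) : ℝ) * T / 100 ≤ ((2 ^ i * 2 ^ k : ℕ) : ℝ) ∧
      ((2 ^ i * 2 ^ k : ℕ) : ℝ) ≤ 2 * (((Q * s : ℕ) : ℝ) * T)
  · by_cases hz : ∀ n, bk (T ^ 2) i (u T) n = 0
    · have h0 : bk (T ^ 2) i (u T) = 0 := by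
        ext n; rw [hz n]; rfl
      have hQQ0 : QQ j T (bk (T ^ 2) i (u T) * bk (T ^ 2) k (v T)) s d
          (Finset.Ioc Q (2 * Q)) ≤ 0 := by
        rw [h0, zero_mul]
        refine (H75.QQ_le j T 0 s d _ 0 ?_ le_rfl ?_).trans (by simp)
        · intro q hq; rw [Finset.mem_Ioc] at hq; omega
        · intro q _ ψ _
          simp [VV]
      have h4 : (d : ℝ) / ((s : ℝ) * s.totient) *
          QQ j T (bk (T ^ 2) i (u T) * bk (T ^ 2) k (v T)) s d (Finset.Ioc Q (2 * Q)) ≤ 0 :=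
        mul_nonpos_of_nonneg_of_nonpos (by positivity) hQQ0
      have h5 : 0 ≤ 1 / T ^ 4 := by positivity
      linarith
    push Not at hz
    obtain ⟨n0, hn0⟩ := hz
    obtain ⟨g1, g2, g3, g4⟩ := bk_ne hn0
    obtain ⟨g5, g6⟩ := hsup T hT3 n0 g4
    have hUze : T ^ ze ≤ 2 * ((2 ^ i : ℕ) : ℝ) := by
      have : (n0 : ℝ) ≤ ((2 * 2 ^ i : ℕ) : ℝ) := by exact_mod_cast g2.le
      push_cast at this ⊢
      linarith
    have hUxi : ((2 ^ i : ℕ) : ℝ) ≤ T ^ xi := le_trans (by exact_mod_cast g1) g6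
    have hmain := hb Q s d (2 ^ i) (2 ^ k) hQ hs hds Nat.one_le_two_pow Nat.one_le_two_pow hQs
      hr.1 hr.2 _ _ hsu (fun n => (hbu n).1) hsv (fun n => (hbv n).1)
    have hsum : (d : ℝ) / s * ∑ d1 ∈ d.divisors,
        1 / ((Q : ℝ) * Real.sqrt Q) * Real.sqrt (((Q : ℝ) ^ 2 + ((2 ^ i : ℕ) : ℝ) / d1) *
          ((Q : ℝ) ^ 2 + ((2 ^ k : ℕ) : ℝ) / ((d / d1 : ℕ) : ℝ)) *
            (((2 ^ i : ℕ) : ℝ) * ((2 ^ k : ℕ) : ℝ) / d)) ≤
        dv s * (T * (6 * T ^ (-η) + 2 / Real.sqrt Q)) := by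
      rw [Finset.mul_sum]
      have hterm : ∀ d1 ∈ d.divisors, (d : ℝ) / s * (1 / ((Q : ℝ) * Real.sqrt Q) *
          Real.sqrt (((Q : ℝ) ^ 2 + ((2 ^ i : ℕ) : ℝ) / d1) *
          ((Q : ℝ) ^ 2 + ((2 ^ k : ℕ) : ℝ) / ((d / d1 : ℕ) : ℝ)) *
            (((2 ^ i : ℕ) : ℝ) * ((2 ^ k : ℕ) : ℝ) / d))) ≤
          T * (6 * T ^ (-η) + 2 / Real.sqrt Q) := by
        intro d1 hd1m
        have hdd : d1 ∣ d := Nat.dvd_of_mem_divisors hd1m
        have hd1p : 1 ≤ d1 := Nat.pos_of_dvd_of_pos hdd hd1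
        have hd2p : 1 ≤ d / d1 := Nat.div_pos (Nat.le_of_dvd hd1 hdd) hd1p
        refine real_block th ze xi η T Q s d d1 ((d / d1 : ℕ) : ℝ) ((2 ^ i : ℕ) : ℝ)
          ((2 ^ k : ℕ) : ℝ) hT1 hQR hsR hdR hdsR (by exact_mod_cast hd1p)
          (by exact_mod_cast hd2p) ?_ (by exact_mod_cast Nat.one_le_two_pow)
          (by exact_mod_cast Nat.one_le_two_pow) ?_ ?_ hUze hUxi e1 e2 e3
        · exact_mod_cast Nat.mul_div_cancel' hdd
        · exact_mod_cast hQs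
        · have := hr.2
          push_cast at this ⊢
          linarith
      refine (Finset.sum_le_card_nsmul _ _ _ hterm).trans ?_
      rw [nsmul_eq_mul]
      apply mul_le_mul_of_nonneg_right _ (by positivity)
      exact dv_le_of_dvd hds hs
    have h5 : 0 ≤ 1 / T ^ 4 := by positivity
    refine le_trans ?_ (le_add_of_nonneg_right h5)
    calc (d : ℝ) / ((s : ℝ) * s.totient) *
          QQ j T (bk (T ^ 2) i (u T) * bk (T ^ 2) k (v T)) s d (Finset.Ioc Q (2 * Q))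
        ≤ (d : ℝ) / ((s : ℝ) * s.totient) * (C * Real.log T ^ M * dv s ^ M *
          ∑ d1 ∈ d.divisors,
            1 / ((Q : ℝ) * Real.sqrt Q) * Real.sqrt (((Q : ℝ) ^ 2 + ((2 ^ i : ℕ) : ℝ) / d1) *
              ((Q : ℝ) ^ 2 + ((2 ^ k : ℕ) : ℝ) / ((d / d1 : ℕ) : ℝ)) *
                (((2 ^ i : ℕ) : ℝ) * ((2 ^ k : ℕ) : ℝ) / d))) :=
          mul_le_mul_of_nonneg_left hmain (by positivity)
      _ = C * Real.log T ^ M * dv s ^ M / s.totient * ((d : ℝ) / s * ∑ d1 ∈ d.divisors,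
            1 / ((Q : ℝ) * Real.sqrt Q) * Real.sqrt (((Q : ℝ) ^ 2 + ((2 ^ i : ℕ) : ℝ) / d1) *
              ((Q : ℝ) ^ 2 + ((2 ^ k : ℕ) : ℝ) / ((d / d1 : ℕ) : ℝ)) *
                (((2 ^ i : ℕ) : ℝ) * ((2 ^ k : ℕ) : ℝ) / d))) := by
          ring
      _ ≤ C * Real.log T ^ M * dv s ^ M / s.totient *
            (dv s * (T * (6 * T ^ (-η) + 2 / Real.sqrt Q))) :=
          mul_le_mul_of_nonneg_left hsum (by positivity)
      _ = C * Real.log T ^ M * dv s ^ (M + 1) * (T / s.totient) *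
            (6 * T ^ (-η) + 2 / Real.sqrt Q) := by rw [pow_succ (dv s)]; ring
  · have hr' : ((2 ^ i * 2 ^ k : ℕ) : ℝ) < ((Q * s : ℕ) : ℝ) * T / 100 ∨
        2 * (((Q * s : ℕ) : ℝ) * T) < ((2 ^ i * 2 ^ k : ℕ) : ℝ) := by
      by_contra h
      push Not at h
      exact hr h
    have h2Qs : 2 * ((Q * s : ℕ) : ℝ) ≤ T := by
      have h6 : T ^ (1 - th) * T ^ th = T := by
        rw [← Real.rpow_add hT0]; simp
      have h7 : 0 ≤ T ^ th := Real.rpow_nonneg hT0.le _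
      calc 2 * ((Q * s : ℕ) : ℝ) ≤ 2 * T ^ th := by gcongr
        _ ≤ T ^ (1 - th) * T ^ th := mul_le_mul_of_nonneg_right hTh h7
        _ = T := h6
    have hsm := small_block j (6 * K + 10) T (K * T ^ (3 * K)) hT1 (by positivity) hw.1 hw.2 _ _
      (fun n => (hbu n).2) (fun n => (hbv n).2) (2 ^ i) (2 ^ k) hsu hsv Q s d hQ hs h2Qs hr'
    have h8 : T * (T ^ 2 * (T ^ 2 * (K * T ^ (3 * K)) ^ 2 / T ^ (6 * K + 10))) ≤ 1 / T ^ 4 := by
      have h9 : T * (T ^ 2 * (T ^ 2 * (K * T ^ (3 * K)) ^ 2 / T ^ (6 * K + 10))) =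
          (K : ℝ) ^ 2 / T ^ 5 := by
        rw [mul_pow, ← pow_mul, show 3 * K * 2 = 6 * K by ring, pow_add T (6 * K) 10]
        field_simp
      rw [h9, div_le_div_iff₀ (by positivity) (by positivity)]
      calc (K : ℝ) ^ 2 * T ^ 4 ≤ T * T ^ 4 := by gcongr
        _ = 1 * T ^ 5 := by ring
    have h10 : (d : ℝ) / ((s : ℝ) * s.totient) ≤ 1 := by
      rw [div_le_one (by positivity)]
      nlinarith
    have h11 : (d : ℝ) / ((s : ℝ) * s.totient) *
        QQ j T (bk (T ^ 2) i (u T) * bk (T ^ 2) k (v T)) s d (Finset.Ioc Q (2 * Q)) ≤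
        1 / T ^ 4 := by
      calc _ ≤ 1 * (1 / T ^ 4) := mul_le_mul h10 (hsm.trans h8)
            (QQ_nonneg _ _ _ _ _ _) zero_le_one
        _ = 1 / T ^ 4 := one_mul _
    linarith

/-- The total, for one value of `T`. -/
theorem total (h1 : DivStatement) (th : ℝ) (j : ℕ) (T : ℝ) (u v : ArithmeticFunction ℝ)
    (C : ℝ) (M a I : ℕ) (Y : ℝ) (hC : 0 < C) (ha : 1 ≤ a) (hTe : Real.exp 1 ≤ T) (hth : 0 < th)
    (hth1 : th ≤ 1) (hI : ⌊T ^ 2⌋₊ < 2 ^ I) (hIL : (I : ℝ) ≤ 4 * Real.log T) (hY : 0 ≤ Y)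
    (hbl : ∀ Q s d i k : ℕ, a ≤ Q → 1 ≤ s → d ∣ s → ((Q * s : ℕ) : ℝ) ≤ T ^ th →
      (d : ℝ) / ((s : ℝ) * s.totient) *
        QQ j T (bk (T ^ 2) i u * bk (T ^ 2) k v) s d (Finset.Ioc Q (2 * Q)) ≤
      C * Real.log T ^ M * dv s ^ (M + 1) * (T / s.totient) * Y + 1 / T ^ 4) :
    EE th j T a ⌊T ^ th⌋₊ (u * v) ≤
      (4 * Real.log T) ^ 3 * (C * Real.log T ^ M * T * Y *
        (2 * Real.log T) ^ (2 ^ (M + 3)) + 1 / T ^ 2) := by
  have hT0 : 0 < T := (Real.exp_pos 1).trans_le hTe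
  have hT1 : 1 ≤ T := by
    have := Real.add_one_le_exp (1 : ℝ); linarith
  have hL : 1 ≤ Real.log T := by rw [Real.le_log_iff_exp_le hT0]; exact hTe
  have hLpos : 0 < Real.log T := by linarith
  have hTth : T ^ th ≤ T := by
    calc T ^ th ≤ T ^ (1 : ℝ) := Real.rpow_le_rpow_of_exponent_le hT1 hth1
      _ = T := Real.rpow_one T
  have hTth1 : 1 ≤ T ^ th := Real.one_le_rpow hT1 hth.le
  set N : ℕ := ⌊T ^ th⌋₊ with hN
  have hN1 : 1 ≤ N := by
    rw [hN, Nat.one_le_floor_iff]; exact hTth1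
  have hNT : (N : ℝ) ≤ T := (Nat.floor_le (by positivity)).trans hTth
  -- each `s`
  have hs_le : ∀ s ∈ (Finset.Icc 1 N).filter Squarefree,
      1 / ((s : ℝ) * (s.totient : ℝ)) * ∑ d ∈ s.divisors, (d : ℝ) *
        QQ j T (u * v) s d ((Finset.Ioc a N).filter (fun q => ((q * s : ℕ) : ℝ) ≤ T ^ th)) ≤
      (I : ℝ) ^ 3 * (C * Real.log T ^ M * T * Y * (dv s ^ (M + 2) / s.totient) +
        dv s / T ^ 4) := by
    intro s hs
    obtain ⟨hs1, hs2⟩ := Finset.mem_filter.1 hs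
    obtain ⟨hs3, hs4⟩ := Finset.mem_Icc.1 hs1
    have hdvs : 1 ≤ dv s := one_le_dv hs3
    set R : Finset ℕ := (Finset.range I).filter (fun l => ((a * 2 ^ l * s : ℕ) : ℝ) ≤ T ^ th)
      with hR
    have hd_le : ∀ d ∈ s.divisors, 1 / ((s : ℝ) * (s.totient : ℝ)) * ((d : ℝ) *
        QQ j T (u * v) s d ((Finset.Ioc a N).filter (fun q => ((q * s : ℕ) : ℝ) ≤ T ^ th))) ≤
        (I : ℝ) ^ 3 * (C * Real.log T ^ M * dv s ^ (M + 1) * (T / s.totient) * Y +
          1 / T ^ 4) := by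
      intro d hd
      have hds := Nat.dvd_of_mem_divisors hd
      have hcov := QQ_cover j T (u * v) s d
        ((Finset.Ioc a N).filter (fun q => ((q * s : ℕ) : ℝ) ≤ T ^ th)) R
        (fun l => Finset.Ioc (a * 2 ^ l) (2 * (a * 2 ^ l))) (by
          intro q hq
          rw [Finset.mem_filter, Finset.mem_Ioc] at hq
          obtain ⟨⟨hq1, hq2⟩, hq3⟩ := hq
          -- the largest `l` with `a 2^l < q`
          have hex : ∃ l, q ≤ a * 2 ^ (l + 1) := by
            refine ⟨q, ?_⟩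
            have : q < 2 ^ q := Nat.lt_two_pow_self
            calc q ≤ 2 ^ (q + 1) := by rw [pow_succ]; omega
              _ ≤ a * 2 ^ (q + 1) := Nat.le_mul_of_pos_left _ ha
          classical
          set l := Nat.find hex with hl
          have hl1 : q ≤ a * 2 ^ (l + 1) := Nat.find_spec hex
          have hl2 : a * 2 ^ l < q := by
            rcases Nat.eq_zero_or_pos l with h0 | hpos
            · rw [h0, pow_zero, mul_one]; exact hq1
            · have := Nat.find_min hex (m := l - 1) (by omega)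
              rw [show l - 1 + 1 = l by omega] at this
              omega
          refine ⟨l, ?_, ?_⟩
          · rw [hR, Finset.mem_filter, Finset.mem_range]
            constructor
            · have h5 : q ≤ ⌊T ^ 2⌋₊ := by
                refine hq2.trans ?_
                rw [hN]
                apply Nat.floor_le_floor
                refine hTth.trans ?_
                nlinarith
              have h6 : 2 ^ l < 2 ^ I := by
                have : 2 ^ l ≤ a * 2 ^ l := Nat.le_mul_of_pos_left _ ha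
                omega
              exact (Nat.pow_lt_pow_iff_right (by norm_num)).1 h6
            · refine le_trans ?_ hq3
              exact_mod_cast Nat.mul_le_mul_right s hl2.le
          · rw [Finset.mem_Ioc]
            refine ⟨hl2, ?_⟩
            calc q ≤ a * 2 ^ (l + 1) := hl1
              _ = 2 * (a * 2 ^ l) := by rw [pow_succ]; ring)
      have hQl : ∀ l ∈ R, (d : ℝ) / ((s : ℝ) * s.totient) *
          QQ j T (u * v) s d (Finset.Ioc (a * 2 ^ l) (2 * (a * 2 ^ l))) ≤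
          (I : ℝ) ^ 2 * (C * Real.log T ^ M * dv s ^ (M + 1) * (T / s.totient) * Y +
            1 / T ^ 4) := by
        intro l hl
        rw [hR, Finset.mem_filter] at hl
        have hcg := QQ_congr j T (u * v) (∑ p ∈ Finset.range I ×ˢ Finset.range I,
          bk (T ^ 2) p.1 u * bk (T ^ 2) p.2 v) s d (Finset.Ioc (a * 2 ^ l) (2 * (a * 2 ^ l)))
          (fun n _ hn => conv_eq (T ^ 2) u v I n
            ((Nat.cast_le.2 hn).trans (Nat.floor_le (by positivity))) (by omega))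
        rw [hcg]
        have hsum := QQ_sum_le j T (Finset.range I ×ˢ Finset.range I)
          (fun p => bk (T ^ 2) p.1 u * bk (T ^ 2) p.2 v) s d
          (Finset.Ioc (a * 2 ^ l) (2 * (a * 2 ^ l)))
        refine (mul_le_mul_of_nonneg_left hsum (by positivity)).trans ?_
        rw [Finset.mul_sum]
        have hterm : ∀ p ∈ Finset.range I ×ˢ Finset.range I,
            (d : ℝ) / ((s : ℝ) * s.totient) * QQ j T (bk (T ^ 2) p.1 u * bk (T ^ 2) p.2 v) s d
              (Finset.Ioc (a * 2 ^ l) (2 * (a * 2 ^ l))) ≤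
            C * Real.log T ^ M * dv s ^ (M + 1) * (T / s.totient) * Y + 1 / T ^ 4 := by
          intro p _
          exact hbl (a * 2 ^ l) s d p.1 p.2 (Nat.le_mul_of_pos_right _ (by positivity)) hs3 hds
            hl.2
        refine (Finset.sum_le_card_nsmul _ _ _ hterm).trans ?_
        rw [nsmul_eq_mul, Finset.card_product, Finset.card_range]
        push_cast
        rw [sq]
      calc 1 / ((s : ℝ) * (s.totient : ℝ)) * ((d : ℝ) *
          QQ j T (u * v) s d ((Finset.Ioc a N).filter (fun q => ((q * s : ℕ) : ℝ) ≤ T ^ th)))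
          ≤ 1 / ((s : ℝ) * (s.totient : ℝ)) * ((d : ℝ) * ∑ l ∈ R,
            QQ j T (u * v) s d (Finset.Ioc (a * 2 ^ l) (2 * (a * 2 ^ l)))) := by gcongr
        _ = ∑ l ∈ R, (d : ℝ) / ((s : ℝ) * s.totient) *
            QQ j T (u * v) s d (Finset.Ioc (a * 2 ^ l) (2 * (a * 2 ^ l))) := by
            rw [← Finset.mul_sum]; ring
        _ ≤ ∑ _l ∈ R, (I : ℝ) ^ 2 * (C * Real.log T ^ M * dv s ^ (M + 1) *
            (T / s.totient) * Y + 1 / T ^ 4) := Finset.sum_le_sum hQl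
        _ ≤ (I : ℝ) * ((I : ℝ) ^ 2 * (C * Real.log T ^ M * dv s ^ (M + 1) *
            (T / s.totient) * Y + 1 / T ^ 4)) := by
            rw [Finset.sum_const, nsmul_eq_mul]
            apply mul_le_mul_of_nonneg_right _ (by positivity)
            have := Finset.card_filter_le (Finset.range I)
              (fun l => ((a * 2 ^ l * s : ℕ) : ℝ) ≤ T ^ th)
            rw [Finset.card_range] at this
            exact_mod_cast this
        _ = _ := by ring
    rw [Finset.mul_sum]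
    refine (Finset.sum_le_card_nsmul _ _ _ hd_le).trans ?_
    rw [nsmul_eq_mul]
    have hcard : (s.divisors.card : ℝ) = dv s := rfl
    rw [hcard, pow_succ (dv s) (M + 1)]
    apply le_of_eq
    ring
  unfold EE
  refine (Finset.sum_le_sum hs_le).trans ?_
  have hsub : ∑ s ∈ (Finset.Icc 1 N).filter Squarefree, (I : ℝ) ^ 3 * (C * Real.log T ^ M * T *
      Y * (dv s ^ (M + 2) / s.totient) + dv s / T ^ 4) ≤
      ∑ s ∈ Finset.Icc 1 N, (I : ℝ) ^ 3 * (C * Real.log T ^ M * T * Y *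
        (dv s ^ (M + 2) / s.totient) + dv s / T ^ 4) := by
    refine Finset.sum_le_sum_of_subset_of_nonneg (Finset.filter_subset _ _) fun s _ _ => ?_
    have := dv_nonneg s
    positivity
  refine hsub.trans ?_
  rw [← Finset.mul_sum, Finset.sum_add_distrib, ← Finset.mul_sum]
  have hlogN : 1 + Real.log (N : ℝ) ≤ 2 * Real.log T := by
    have h6 : Real.log (N : ℝ) ≤ Real.log T := by
      apply Real.log_le_log
      · exact_mod_cast hN1
      · exact hNT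
    linarith
  have hlogN0 : 0 ≤ 1 + Real.log (N : ℝ) := by
    have : 0 ≤ Real.log (N : ℝ) := Real.log_natCast_nonneg _
    linarith
  have hphi : ∑ s ∈ Finset.Icc 1 N, dv s ^ (M + 2) / (s.totient : ℝ) ≤
      (2 * Real.log T) ^ (2 ^ (M + 3)) :=
    (h1.2.2.2.1 (M + 2) N hN1).trans (pow_le_pow_left₀ hlogN0 hlogN _)
  have hdvsum : ∑ s ∈ Finset.Icc 1 N, dv s / T ^ 4 ≤ 1 / T ^ 2 := by
    have h6 : ∀ s ∈ Finset.Icc 1 N, dv s / T ^ 4 ≤ T / T ^ 4 := by
      intro s hs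
      rw [Finset.mem_Icc] at hs
      apply div_le_div_of_nonneg_right _ (by positivity)
      exact (dv_le_self s).trans (le_trans (by exact_mod_cast hs.2) hNT)
    refine (Finset.sum_le_card_nsmul _ _ _ h6).trans ?_
    rw [nsmul_eq_mul, Nat.card_Icc, Nat.add_sub_cancel]
    calc (N : ℝ) * (T / T ^ 4) ≤ T * (T / T ^ 4) := by gcongr
      _ = 1 / T ^ 2 := by field_simp
  have hI3 : (I : ℝ) ^ 3 ≤ (4 * Real.log T) ^ 3 := pow_le_pow_left₀ (Nat.cast_nonneg _) hIL 3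
  have hsumnn : 0 ≤ ∑ s ∈ Finset.Icc 1 N, dv s ^ (M + 2) / (s.totient : ℝ) :=
    Finset.sum_nonneg fun s _ => by have := dv_nonneg s; positivity
  have hdvnn : 0 ≤ ∑ s ∈ Finset.Icc 1 N, dv s / T ^ 4 :=
    Finset.sum_nonneg fun s _ => by have := dv_nonneg s; positivity
  gcongr

/-- The number of dyadic blocks. -/
theorem num_blocks : ∀ᶠ T : ℝ in atTop, ∃ I : ℕ, ⌊T ^ 2⌋₊ < 2 ^ I ∧
    (I : ℝ) ≤ 4 * Real.log T := by
  filter_upwards [eventually_ge_atTop (Real.exp 1)] with T hTe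
  have hT0 : 0 < T := (Real.exp_pos 1).trans_le hTe
  have hT1 : 1 ≤ T := by
    have := Real.add_one_le_exp (1 : ℝ); linarith
  have hL : 1 ≤ Real.log T := by rw [Real.le_log_iff_exp_le hT0]; exact hTe
  have hN1 : 1 ≤ ⌊T ^ 2⌋₊ := by
    rw [Nat.one_le_floor_iff]; nlinarith
  refine ⟨Nat.log 2 ⌊T ^ 2⌋₊ + 1, Nat.lt_pow_succ_log_self (by norm_num) _, ?_⟩
  have h1 : 2 ^ (Nat.log 2 ⌊T ^ 2⌋₊) ≤ ⌊T ^ 2⌋₊ := Nat.pow_log_le_self 2 (by omega)
  have h2 : ((2 : ℝ) ^ (Nat.log 2 ⌊T ^ 2⌋₊)) ≤ T ^ 2 := by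
    refine le_trans ?_ (Nat.floor_le (by positivity : 0 ≤ T ^ 2))
    exact_mod_cast h1
  have h3 : Real.log ((2 : ℝ) ^ (Nat.log 2 ⌊T ^ 2⌋₊)) ≤ Real.log (T ^ 2) :=
    Real.log_le_log (by positivity) h2
  rw [Real.log_pow, Real.log_pow] at h3
  have h4 : (0.69 : ℝ) < Real.log 2 := by
    have := Real.log_two_gt_d9; norm_num at this ⊢; linarith
  push_cast at h3 ⊢
  have h5 : (0 : ℝ) ≤ (Nat.log 2 ⌊T ^ 2⌋₊ : ℝ) := Nat.cast_nonneg _
  nlinarith

end Bil

/-- BIL. -/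
theorem bil (h1 : DivStatement) (h2 : WttStatement) (h3 : BlkStatement) : BilStatement := by
  intro th ze xi hth hth2 hze hxi j u v hu hv hsup
  set η : ℝ := min (1 / 2 - th) (min ((1 - xi) / 2) ((ze - th) / 2)) with hη
  have hη0 : 0 < η := by
    rw [hη]
    refine lt_min (by linarith) (lt_min (by linarith) (by linarith))
  obtain ⟨C, M, hC, hbl⟩ := Bil.block h3 h2 th ze xi hth hth2 j u v hu hv hsup η
    (min_le_left _ _) ((min_le_right _ _).trans (min_le_left _ _))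
    ((min_le_right _ _).trans (min_le_right _ _))
  set G : ℕ := 3 + M + 2 ^ (M + 3) with hG
  set C1 : ℝ := 64 * C * 2 ^ (2 ^ (M + 3)) with hC1
  have hC10 : 0 < C1 := by positivity
  refine ⟨2 * (G + 1), fun A hA => ?_⟩
  have hlim : Tendsto (fun T : ℝ => C1 * (6 * T ^ (-(η / 2)) + 4 * (Real.log T)⁻¹) + T⁻¹) atTop
      (𝓝 0) := by
    have e1 : Tendsto (fun T : ℝ => T ^ (-(η / 2))) atTop (𝓝 0) :=
      tendsto_rpow_neg_atTop (by linarith)
    have e2 : Tendsto (fun T : ℝ => (Real.log T)⁻¹) atTop (𝓝 0) :=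
      tendsto_inv_atTop_zero.comp Real.tendsto_log_atTop
    have e3 : Tendsto (fun T : ℝ => T⁻¹) atTop (𝓝 0) := tendsto_inv_atTop_zero
    have := (((e1.const_mul 6).add (e2.const_mul 4)).const_mul C1).add e3
    simpa using this
  refine squeeze_zero' ?_ ?_ hlim
  · filter_upwards [eventually_ge_atTop (0 : ℝ)] with T hT
    exact div_nonneg (EE_nonneg _ _ _ _ _ _) hT
  filter_upwards [hbl, Bil.num_blocks, eventually_ge_atTop (Real.exp 1),
    Bil.log_pow_le G (η / 2) (by linarith), Bil.log_pow_le 3 1 one_pos,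
    Real.tendsto_log_atTop.eventually_ge_atTop (2 : ℝ), eventually_ge_atTop (64 : ℝ)]
    with T hb hI hTe hLG hL3 hL2 hT64
  obtain ⟨I, hI1, hI2⟩ := hI
  have hT0 : 0 < T := by linarith
  have hLpos : 0 < Real.log T := by linarith
  have hL1 : 1 ≤ Real.log T := by linarith
  set a : ℕ := ⌊Real.log T ^ A⌋₊ with ha
  have hLA : Real.log T ^ (2 * (G + 1)) ≤ Real.log T ^ A := pow_le_pow_right₀ hL1 hA
  have hLA2 : 2 ≤ Real.log T ^ (2 * (G + 1)) := by
    calc (2 : ℝ) ≤ Real.log T := hL2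
      _ = Real.log T ^ 1 := (pow_one _).symm
      _ ≤ Real.log T ^ (2 * (G + 1)) :=
          pow_le_pow_right₀ hL1 (Nat.succ_le_of_lt (Nat.mul_pos two_pos (Nat.succ_pos G)))
  have haR : Real.log T ^ (2 * (G + 1)) / 2 ≤ a := by
    have := Nat.lt_floor_add_one (Real.log T ^ A)
    rw [← ha] at this
    linarith
  have ha1 : 1 ≤ a := by
    rw [ha, Nat.one_le_floor_iff]; linarith
  have hsqrt : Real.log T ^ (G + 1) / 2 ≤ Real.sqrt a := by
    apply Real.le_sqrt_of_sq_le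
    refine le_trans ?_ haR
    rw [div_pow, ← pow_mul, mul_comm (G + 1) 2]
    have : 0 ≤ Real.log T ^ (2 * (G + 1)) := by positivity
    linarith
  have hsq0 : 0 < Real.sqrt a := Real.sqrt_pos.2 (by exact_mod_cast ha1)
  set Y : ℝ := 6 * T ^ (-η) + 2 / Real.sqrt a with hY
  have hY0 : 0 ≤ Y := by positivity
  have htot := Bil.total h1 th j T (u T) (v T) C M a I Y hC ha1 hTe hth (by linarith) hI1 hI2
    hY0 (fun Q s d i k hQ hs hds hQs => by
      refine (hb Q s d i k (ha1.trans hQ) hs hds hQs).trans ?_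
      have hφ : (1 : ℝ) ≤ s.totient := by exact_mod_cast Nat.totient_pos.2 hs
      have hdvs : 1 ≤ dv s := Bil.one_le_dv hs
      have hyy : 6 * T ^ (-η) + 2 / Real.sqrt Q ≤ Y := by
        rw [hY]
        have : Real.sqrt a ≤ Real.sqrt Q := Real.sqrt_le_sqrt (by exact_mod_cast hQ)
        gcongr
      have : 0 ≤ C * Real.log T ^ M * dv s ^ (M + 1) * (T / s.totient) := by positivity
      have := mul_le_mul_of_nonneg_left hyy this
      linarith)
  have hLGY : Real.log T ^ G * Y ≤ 6 * T ^ (-(η / 2)) + 4 * (Real.log T)⁻¹ := by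
    rw [hY, mul_add]
    apply add_le_add
    · have e1 : T ^ (η / 2) * T ^ (-η) = T ^ (-(η / 2)) := by
        rw [← Real.rpow_add hT0]; congr 1; ring
      have e2 : 0 ≤ T ^ (-η) := Real.rpow_nonneg hT0.le _
      calc Real.log T ^ G * (6 * T ^ (-η)) = 6 * (Real.log T ^ G * T ^ (-η)) := by ring
        _ ≤ 6 * (T ^ (η / 2) * T ^ (-η)) := by gcongr
        _ = 6 * T ^ (-(η / 2)) := by rw [e1]
    · calc Real.log T ^ G * (2 / Real.sqrt a) = Real.log T ^ G * 2 / Real.sqrt a := by ring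
        _ ≤ Real.log T ^ G * 2 / (Real.log T ^ (G + 1) / 2) := by
            apply div_le_div_of_nonneg_left (by positivity) (by positivity) hsqrt
        _ = 4 * (Real.log T)⁻¹ := by
            rw [pow_succ]
            field_simp
            norm_num
  have h64 : 64 * Real.log T ^ 3 / T ^ 3 ≤ T⁻¹ := by
    rw [div_le_iff₀ (by positivity)]
    have e1 : Real.log T ^ 3 ≤ T := by simpa using hL3
    calc 64 * Real.log T ^ 3 ≤ T * T := mul_le_mul hT64 e1 (by positivity) hT0.le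
      _ = T⁻¹ * T ^ 3 := by field_simp
  calc EE th j T a ⌊T ^ th⌋₊ (u T * v T) / T
      ≤ ((4 * Real.log T) ^ 3 * (C * Real.log T ^ M * T * Y *
        (2 * Real.log T) ^ (2 ^ (M + 3)) + 1 / T ^ 2)) / T := by gcongr
    _ = C1 * (Real.log T ^ G * Y) + 64 * Real.log T ^ 3 / T ^ 3 := by
        rw [hC1, hG, mul_pow 2 (Real.log T), mul_pow 4 (Real.log T), pow_add (Real.log T),
          pow_add (Real.log T)]
        field_simp
        ring
    _ ≤ C1 * (6 * T ^ (-(η / 2)) + 4 * (Real.log T)⁻¹) + T⁻¹ := by gcongr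

end Pool.Agent.Lib.MP_6bc78b_nt.MS.P2.H46
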